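import Pool.Agent.H180.TF.Final

/-!
# Condition (ii) does not imply condition (i) for triangular subalgebras of UHF algebras

The definitions are in `Pool.Agent.H180.TF.Defs`. The UHF algebra of the example is
infinite-dimensional (for the finite-dimensional factors condition (i) fails for trivial reasons).
-/

open MeasureTheory WeakDual Pool.Agent.H180.TF

namespace Pool.Agent.H180.TF

open Pool.Agent.Helper741.UHF Pool.Agent.H180.UP

/-- The spectrum of the diagonal is finite if the algebra is finite-dimensional. -/
theorem finite_spec {A : Type} [CStarAlgebra A] (T : Subalgebra ℂ A) [FiniteDimensional ℂ A] :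
    Finite (Spec T) := by
  have hfd : FiniteDimensional ℂ (diagonal T) :=
    FiniteDimensional.of_injective ((diagonal T).subtype : diagonal T →⋆ₐ[ℂ] A).toLinearMap
      Subtype.val_injective
  have hli := linearIndependent_toLinearMap ℂ (diagonal T) ℂ
  have h1 : Finite (diagonal T →ₐ[ℂ] ℂ) := hli.finite
  let F : Spec T → (diagonal T →ₐ[ℂ] ℂ) := fun x => CharacterSpace.toAlgHom x
  refine Finite.of_injective F ?_
  intro x y hxy
  apply CharacterSpace.ext
  intro a
  exact congrArg (fun g : diagonal T →ₐ[ℂ] ℂ => g a) hxy

theorem infinite_Y : Infinite Y := by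
  let g : ℕ → Y := fun n l => if l = n then ⟨1, by
    have : 4 ≤ 4 ^ (l + 1) := by
      calc 4 = 4 ^ 1 := by norm_num
        _ ≤ 4 ^ (l + 1) := Nat.pow_le_pow_right (by norm_num) (by omega)
    show 1 < 4 ^ (l + 1)
    omega⟩ else ⟨0, r_pos l⟩
  refine Infinite.of_injective g ?_
  intro a b hab
  by_contra hne
  have h1 := congrFun hab a
  simp only [g, if_true, if_neg hne] at h1
  exact absurd (congrArg Fin.val h1) (by norm_num)

end Pool.Agent.H180.TF

namespace Pool.Agent.Results.MP_6e0de5_an.SecondNotFirst

open Pool.Agent.Helper741.UHF Pool.Agent.H180.UP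

/-- **Main result.** There are an infinite-dimensional UHF algebra `A` and a strongly maximal TAF
subalgebra `T` of `A` which satisfies condition (ii) and does not satisfy condition (i). (Every
point of the spectrum of the diagonal has a nest of projections, and the measure given by the
normalized trace exists, so that no clause is vacuous.) -/
theorem result : ∃ (A : Type) (_ : CStarAlgebra A) (_ : Nontrivial A) (U : UHF A)
    (T : Subalgebra ℂ A), ¬ FiniteDimensional ℂ A ∧
      IsTAF U T ∧ StronglyMaximal T ∧ (∀ x : Spec T, ∃ e, IsNest T x e) ∧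
      (∃ μ, IsTraceMeasure U T μ) ∧ ∀ μ, IsTraceMeasure U T μ → CondII T μ ∧ ¬ CondI T μ := by
  have hpos : ∀ j, 0 < r j := r_pos
  have := nontrivial_L2 hpos
  obtain ⟨A, iA, nA, f, _, h, hgen, _⟩ := exists_generated (fock_musys hpos)
  have hcomm := hcomm_of h hgen
  refine ⟨A, iA, nA, theUHF h hgen, Talg h, ?_, isTAF h hgen, stronglyMaximal h hgen,
    fun x => ⟨_, isNest_canonical h x⟩, exists_trace_measure h hgen, ?_⟩
  · intro hfd
    have h1 : Finite (Spec (Talg h)) := finite_spec _
    have h2 : Finite Y := Finite.of_surjective (code h) (code_surjective h hcomm)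
    have := infinite_Y
    exact not_finite Y
  intro μ hμ
  have hν := uniform_of_trace h hgen hμ
  have hmap : ∀ B : Set Y, μ.map (code h) B = μ (code h ⁻¹' B) := fun B =>
    (codeH h hcomm).toMeasurableEquiv.map_apply B
  constructor
  · intro x y hxy hne e e' he he'
    rw [Eset_eq h hcomm he, Eset_eq h hcomm he', ← hmap, ← hmap]
    rcases hν.condII ((ple_iff h x y).mp hxy) (fun hh => hne (code_injective h hh)) with h1 | h1
    · exact Or.inl h1
    · obtain ⟨C, hC, hCi, hyC, hxC⟩ := h1
      refine Or.inr ⟨code h ⁻¹' C, hC.preimage (continuous_code h), ?_, hyC, hxC⟩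
      intro z hz w hzw
      exact hCi _ hz _ ((ple_iff h z w).mp hzw)
  · intro hI
    obtain ⟨x, hx⟩ := code_surjective h hcomm lastc
    have h1 := hI x _ (isNest_canonical h x)
    rw [Eset_eq h hcomm (isNest_canonical h x), Jset_eq h hcomm (isNest_canonical h x),
      ← Set.preimage_inter, ← hmap, hx] at h1
    exact hν.not_condI h1

end Pool.Agent.Results.MP_6e0de5_an.SecondNotFirst
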